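import Pool.Agent.X123.ML.Mean
import Pool.Agent.X123.ML.Limsup

/-!
# The coefficients of cusp forms of weight `3 / 2` at the integers near almost all targets

Let `s` be a sequence of points of a metric space, for example `s(n)` the fractional part of `β n`. For all `z` outside a set of
dimension at most `d`, the coefficients `a(n)` of ALL cusp forms of weight `3 / 2` on the groups `Γ_0(24 p)` satisfy
`|a(n)| ^ 2 ≤ n ^ (3 / 2 + ε) |z - s(n)| ^ d` for ALL large `n`. In particular the bound `|a(n)| ≤ n ^ (1 / 4 + ε)` holds for ALL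
large `n` with `|z - s(n)| ≤ n ^ (-1 / d)`, and for almost every real `z` for ALL large `n` with `|z - s(n)| ≤ 1 / n`.
-/

set_option autoImplicit false

namespace Pool.Agent.Results.MP_af11aa_nt.CoefficientsNearTargets

open Finset Complex UpperHalfPlane Filter
open scoped MatrixGroups

/-- The theta function `θ(z) = ∑_{n ∈ ℤ} e(n² z)`. -/
noncomputable def theta (z : ℍ) : ℂ := ∑' n : ℤ, cexp (2 * Real.pi * Complex.I * (n : ℂ) ^ 2 * (z : ℂ))

/-- The cusp forms of weight `3 / 2` on `Γ_0(N)` with character `χ`, in Shimura's normalisation: `f` is holomorphic on the upper half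
plane, `f(γ z) = χ(d) j(γ, z)³ f(z)` for the matrices `γ` in `Γ_0(N)` with lower right entry `d`, `j(γ, z) = θ(γ z) / θ(z)`, and
`(Im z) ^ (3 / 4) |f(z)|` is bounded. -/
structure IsCuspForm (N : ℕ) (χ : DirichletCharacter ℂ N) (f : ℍ → ℂ) : Prop where
  holomorphic : DifferentiableOn ℂ (fun z : ℂ => f (UpperHalfPlane.ofComplex z)) {z : ℂ | 0 < z.im}
  modular : ∀ γ ∈ CongruenceSubgroup.Gamma0 N, ∀ z : ℍ,
    f (γ • z) * theta z ^ 3 = χ ((γ : Matrix (Fin 2) (Fin 2) ℤ) 1 1 : ZMod N) * theta (γ • z) ^ 3 * f z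
  cuspidal : ∃ C : ℝ, ∀ z : ℍ, z.im ^ (3 / 4 : ℝ) * ‖f z‖ ≤ C

/-- `a(n)` are the Fourier coefficients of `f`: `f(z) = ∑ a(n) e(n z)`. -/
def Coefficients (f : ℍ → ℂ) (a : ℕ → ℂ) : Prop :=
  ∀ z : ℍ, HasSum (fun n : ℕ => a n * cexp (2 * Real.pi * Complex.I * (n : ℂ) * (z : ℂ))) (f z)

/-- `a` is the sequence of coefficients of a cusp form of weight `3 / 2` on some group `Γ_0(24 p)`, `p` a prime, with some character. -/
def IsCoefficientSequence (a : ℕ → ℂ) : Prop :=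
  ∃ (p : ℕ) (χ : DirichletCharacter ℂ (24 * p)) (f : ℍ → ℂ), p.Prime ∧ IsCuspForm (24 * p) χ f ∧ Coefficients f a

lemma mean {a : ℕ → ℂ} (ha : IsCoefficientSequence a) :
    ∃ D : ℝ, ∀ X : ℕ, 1 ≤ X → ∑ n ∈ Finset.range (X + 1), ‖a n‖ ^ 2 ≤ D * (X : ℝ) ^ (3 / 2 : ℝ) := by
  obtain ⟨p, χ, f, _, hcusp, hcoef⟩ := ha
  obtain ⟨C, hC⟩ := hcusp.cuspidal
  have hC0 : 0 ≤ C := le_trans (by positivity) (hC UpperHalfPlane.I)
  have hms := Pool.Agent.X123.ML.mean_sq a (fun z => f (UpperHalfPlane.ofComplex z)) (3 / 4) C (by norm_num) hC0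
    (by
      intro z hz
      have h1 := hcoef (UpperHalfPlane.ofComplex z)
      rw [UpperHalfPlane.ofComplex_apply_of_im_pos hz] at h1 ⊢
      exact h1)
    (by
      intro z hz
      have h1 := hC (UpperHalfPlane.ofComplex z)
      rw [UpperHalfPlane.ofComplex_apply_of_im_pos hz] at h1 ⊢
      exact h1)
  refine ⟨Real.exp (4 * Real.pi) * C ^ 2, fun X hX => ?_⟩
  have e : (3 / 2 : ℝ) = 2 * (3 / 4) := by norm_num
  rw [e]
  exact hms X hX

/-- a bound for all sequences `F j` is a bound for all linear combinations -/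
lemma span_bound {F : ℕ → ℕ → ℂ} (B : ℕ → ℝ) (hB : ∀ n, 0 ≤ B n) {θ : ℝ}
    (h : ∀ j, ∀ ε : ℝ, 0 < ε → ∀ᶠ n : ℕ in atTop, ‖F j n‖ ^ 2 ≤ (n : ℝ) ^ (θ + ε) * B n)
    {a : ℕ → ℂ} (ha : a ∈ Submodule.span ℂ (Set.range F)) (ε : ℝ) (hε : 0 < ε) :
    ∀ᶠ n : ℕ in atTop, ‖a n‖ ^ 2 ≤ (n : ℝ) ^ (θ + ε) * B n := by
  have key : ∃ C : ℝ, 0 ≤ C ∧ ∀ᶠ n : ℕ in atTop, ‖a n‖ ^ 2 ≤ C * ((n : ℝ) ^ (θ + ε / 2) * B n) := by
    induction ha using Submodule.span_induction with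
    | mem x hx =>
      obtain ⟨j, rfl⟩ := hx
      refine ⟨1, zero_le_one, ?_⟩
      filter_upwards [h j (ε / 2) (by positivity)] with n hn
      rw [one_mul]
      exact hn
    | zero =>
      refine ⟨0, le_rfl, Eventually.of_forall fun n => ?_⟩
      simp
    | add x y _ _ hx hy =>
      obtain ⟨C1, h1, h1'⟩ := hx
      obtain ⟨C2, h2, h2'⟩ := hy
      refine ⟨2 * (C1 + C2), by positivity, ?_⟩
      filter_upwards [h1', h2'] with n hn1 hn2
      rw [Pi.add_apply]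
      have h3 := norm_add_le (x n) (y n)
      have h4 : ‖x n + y n‖ ^ 2 ≤ (‖x n‖ + ‖y n‖) ^ 2 := pow_le_pow_left₀ (norm_nonneg _) h3 2
      nlinarith [sq_nonneg (‖x n‖ - ‖y n‖)]
    | smul b x _ hx =>
      obtain ⟨C1, h1, h1'⟩ := hx
      refine ⟨‖b‖ ^ 2 * C1, by positivity, ?_⟩
      filter_upwards [h1'] with n hn1
      rw [Pi.smul_apply, smul_eq_mul, norm_mul, mul_pow, mul_assoc]
      exact mul_le_mul_of_nonneg_left hn1 (by positivity)
  obtain ⟨C, _, hC⟩ := key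
  have hlim : Tendsto (fun n : ℕ => (n : ℝ) ^ (ε / 2)) atTop atTop :=
    (tendsto_rpow_atTop (by positivity)).comp tendsto_natCast_atTop_atTop
  filter_upwards [hC, hlim.eventually_ge_atTop C, eventually_ge_atTop 1] with n hn hn2 hn3
  have hn0 : (0 : ℝ) < n := by exact_mod_cast hn3
  refine hn.trans ?_
  have h1 : (n : ℝ) ^ (θ + ε) = (n : ℝ) ^ (ε / 2) * (n : ℝ) ^ (θ + ε / 2) := by
    rw [← Real.rpow_add hn0]; congr 1; ring
  rw [h1, mul_assoc]
  exact mul_le_mul_of_nonneg_right hn2 (mul_nonneg (by positivity) (hB n))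

/-- **Theorem.** Let `F_0, F_1, …` be coefficient sequences of cusp forms of weight `3 / 2` on groups `Γ_0(24 p)` (any countable set
of such forms, for example bases of all these spaces). (1) For every sequence `s` of points of a metric space and every `d > 0` there
is a set `E` of Hausdorff dimension at most `d` such that for each `z` outside `E`, all linear combinations `a = (a(n))` of the `F_j`
and all `ε > 0`, for ALL large `n` `|a(n)| ^ 2 ≤ n ^ (3 / 2 + ε) dist(z, s(n)) ^ d`, and so `|a(n)| ≤ n ^ (1 / 4 + ε)` for ALL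
large `n` with `dist(z, s(n)) ≤ n ^ (-1 / d)`. (2) If the `s(n)` are real numbers, then for almost every real `z`, all linear
combinations `a` and all `ε > 0`, for ALL large `n` `|a(n)| ^ 2 ≤ n ^ (3 / 2 + ε) |z - s(n)|`, and so `|a(n)| ≤ n ^ (1 / 4 + ε)` for
ALL large `n` with `|z - s(n)| ≤ 1 / n`. -/
theorem result (F : ℕ → ℕ → ℂ) (hF : ∀ j, IsCoefficientSequence (F j)) :
    (∀ (M : Type) [MetricSpace M] (s : ℕ → M) (d : ℝ), 0 < d →
      ∃ E : Set M, dimH E ≤ ENNReal.ofReal d ∧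
        ∀ z : M, z ∉ E → ∀ a ∈ Submodule.span ℂ (Set.range F), ∀ ε : ℝ, 0 < ε →
          (∀ᶠ n : ℕ in atTop, ‖a n‖ ^ 2 ≤ (n : ℝ) ^ (3 / 2 + ε) * dist z (s n) ^ d) ∧
          ∀ᶠ n : ℕ in atTop, dist z (s n) ≤ (n : ℝ) ^ (-(1 / d)) → ‖a n‖ ≤ (n : ℝ) ^ (1 / 4 + ε)) ∧
    ∀ s : ℕ → ℝ, ∀ᵐ z : ℝ, ∀ a ∈ Submodule.span ℂ (Set.range F), ∀ ε : ℝ, 0 < ε →
      (∀ᶠ n : ℕ in atTop, ‖a n‖ ^ 2 ≤ (n : ℝ) ^ (3 / 2 + ε) * |z - s n|) ∧
      ∀ᶠ n : ℕ in atTop, |z - s n| ≤ 1 / (n : ℝ) → ‖a n‖ ≤ (n : ℝ) ^ (1 / 4 + ε) := by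
  have hfin : ∀ (n : ℕ) (x q ε : ℝ), 1 ≤ n → x ^ 2 ≤ (n : ℝ) ^ (3 / 2 + 2 * ε) * q → q ≤ 1 / (n : ℝ) →
      x ≤ (n : ℝ) ^ (1 / 4 + ε) := by
    intro n x q ε hn hx hq
    have hn0 : (0 : ℝ) < n := by exact_mod_cast hn
    apply le_of_sq_le_sq _ (by positivity)
    refine (hx.trans (mul_le_mul_of_nonneg_left hq (by positivity))).trans (le_of_eq ?_)
    rw [one_div, ← Real.rpow_neg_one, ← Real.rpow_add hn0, ← Real.rpow_natCast, ← Real.rpow_mul hn0.le]
    congr 1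
    push_cast
    ring
  refine ⟨fun M _ s d hd => ?_, fun s => ?_⟩
  · obtain ⟨E, hE, hE2⟩ := Pool.Agent.X123.ML.mean_dim s (fun j n => ‖F j n‖ ^ 2) (fun j n => by positivity)
      (e := 3 / 2) (by norm_num) hd (fun j => mean (hF j))
    refine ⟨E, hE, fun z hz a ha ε hε => ?_⟩
    have h1 : ∀ η : ℝ, 0 < η → ∀ᶠ n : ℕ in atTop, ‖a n‖ ^ 2 ≤ (n : ℝ) ^ (3 / 2 + η) * dist z (s n) ^ d :=
      fun η hη => span_bound (fun n => dist z (s n) ^ d) (fun n => Real.rpow_nonneg dist_nonneg _)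
        (fun j ε hε => hE2 z hz j ε hε) ha η hη
    refine ⟨h1 ε hε, ?_⟩
    filter_upwards [h1 (2 * ε) (by positivity), eventually_ge_atTop 1] with n hn hn1 hn2
    refine hfin n _ _ ε hn1 hn ?_
    refine (Real.rpow_le_rpow dist_nonneg hn2 hd.le).trans (le_of_eq ?_)
    rw [← Real.rpow_mul (Nat.cast_nonneg n), neg_mul, one_div_mul_cancel hd.ne', Real.rpow_neg_one, one_div]
  · filter_upwards [Pool.Agent.X123.ML.mean_ae s (fun j n => ‖F j n‖ ^ 2) (fun j n => by positivity)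
      (e := 3 / 2) (by norm_num) (fun j => mean (hF j))] with z hz a ha ε hε
    have h1 : ∀ η : ℝ, 0 < η → ∀ᶠ n : ℕ in atTop, ‖a n‖ ^ 2 ≤ (n : ℝ) ^ (3 / 2 + η) * |z - s n| :=
      fun η hη => span_bound (fun n => |z - s n|) (fun n => abs_nonneg _) (fun j ε hε => hz j ε hε) ha η hη
    refine ⟨h1 ε hε, ?_⟩
    filter_upwards [h1 (2 * ε) (by positivity), eventually_ge_atTop 1] with n hn hn1 hn2
    exact hfin n _ _ ε hn1 hn hn2

end Pool.Agent.Results.MP_af11aa_nt.CoefficientsNearTargets
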