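import Pool.Agent.X35.MF.Mean
import Pool.Agent.X283.DA.Pack

/-!
# The Ramanujan bound in weight `3 / 2` near real powers and at the denominators of Diophantine approximations

Let `a(n)` be the coefficients of a cusp form of weight `3 / 2` on some `Γ_0(24 p)` with a character, or of any linear
combination of such forms. The bound `|a(n)| ≤ c n ^ (1 / 4 + ε)` (for ALL `ε > 0`, `c > 0` and large `n`) holds

* for the denominators `n` of the convergents of almost every real number, and more generally for all `n` with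
  `‖n x_i - y_i‖ ≤ n ^ (-θ_i)`, `θ_1 + ... + θ_d ≥ 1`, for almost all `x ∈ ℝ ^ d`;
* for `n = ⌊t ^ k⌋`, almost all real numbers `t > 1`, and more generally for all `n` with `|n - t ^ k| ≤ t ^ (θ k)`,
  `θ < 2 ε`.

The exceptional sets are countable unions of sets of Hausdorff dimension `< 1`, the bounds for the dimensions are stated.
-/

set_option autoImplicit false

namespace Pool.Agent.Results.MP_af11aa_nt.PowersAndDenominators

open Finset Complex UpperHalfPlane Filter MeasureTheory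
open scoped MatrixGroups
open Pool.Agent.X283.DA (Sparse AllNear AllDenominators pack)

/-- The theta function `θ(z) = ∑_{n ∈ ℤ} e(n² z)`. -/
noncomputable def theta (z : ℍ) : ℂ := ∑' n : ℤ, cexp (2 * Real.pi * Complex.I * (n : ℂ) ^ 2 * (z : ℂ))

/-- The cusp forms of weight `3 / 2` on `Γ_0(N)` with character `χ`, in Shimura's normalisation: `f` is holomorphic on the upper half
plane, `f(γ z) = χ(d) j(γ, z)³ f(z)` for the matrices `γ` in `Γ_0(N)` with lower right entry `d`, `j(γ, z) = θ(γ z) / θ(z)`, and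
`(Im z) ^ (3 / 4) |f(z)|` is bounded. -/
structure IsCuspForm (N : ℕ) (χ : DirichletCharacter ℂ N) (f : ℍ → ℂ) : Prop where
  holomorphic : DifferentiableOn ℂ (fun z : ℂ => f (UpperHalfPlane.ofComplex z)) {z : ℂ | 0 < z.im}
  modular : ∀ γ ∈ CongruenceSubgroup.Gamma0 N, ∀ z : ℍ,
    f (γ • z) * theta z ^ 3 = χ ((γ : Matrix (Fin 2) (Fin 2) ℤ) 1 1 : ZMod N) * theta (γ • z) ^ 3 * f z
  cuspidal : ∃ C : ℝ, ∀ z : ℍ, z.im ^ (3 / 4 : ℝ) * ‖f z‖ ≤ C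

/-- `a_f(n)` are the Fourier coefficients of `f`: `f(z) = ∑ a_f(n) e(n z)`. -/
def Coefficients (f : ℍ → ℂ) (a : ℕ → ℂ) : Prop :=
  ∀ z : ℍ, HasSum (fun n : ℕ => a n * cexp (2 * Real.pi * Complex.I * (n : ℂ) * (z : ℂ))) (f z)

/-- `F_0, F_1, ...` are coefficient sequences of cusp forms of weight `3 / 2` on groups `Γ_0(24 p)` with characters, `p` prime -/
def FormSequences (F : ℕ → ℕ → ℂ) : Prop :=
  ∀ j, ∃ (p : ℕ) (χ : DirichletCharacter ℂ (24 * p)) (f : ℍ → ℂ), p.Prime ∧ IsCuspForm (24 * p) χ f ∧ Coefficients f (F j)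

/-- For all large `n`, all natural numbers `m` with `|m - w_n| ≤ w_n ^ θ` satisfy `|a(m)| ≤ c m ^ (1 / 4 + ε)`. -/
def Near (a : ℕ → ℂ) (c ε : ℝ) (w : ℕ → ℝ) (θ : ℝ) : Prop :=
  ∃ n₀ : ℕ, ∀ n : ℕ, n₀ ≤ n → ∀ m : ℕ, |(m : ℝ) - w n| ≤ (w n) ^ θ → ‖a m‖ ≤ c * (m : ℝ) ^ (1 / 4 + ε)

/-- All large natural numbers `q` such that `q x_i` is within `q ^ (-θ_i)` of `y_i` modulo `1`, for all `i`, satisfy
`|a(q)| ≤ c q ^ (1 / 4 + ε)`. -/
def AtDenominators (a : ℕ → ℂ) (c ε : ℝ) {d : ℕ} (x y θ : Fin d → ℝ) : Prop :=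
  ∃ q₀ : ℕ, ∀ q : ℕ, q₀ ≤ q → (∀ i, ∃ p : ℤ, |(q : ℝ) * x i - p - y i| ≤ (q : ℝ) ^ (-θ i)) →
    ‖a q‖ ≤ c * (q : ℝ) ^ (1 / 4 + ε)

lemma sparse_bad {p : ℕ} {χ : DirichletCharacter ℂ (24 * p)} {f : ℍ → ℂ} {a : ℕ → ℂ}
    (hcusp : IsCuspForm (24 * p) χ f) (hcoef : Coefficients f a) {c ε : ℝ} (hc : 0 < c) (hε : 0 < ε)
    (hε2 : ε ≤ 1 / 2) : Sparse {n : ℕ | ¬ ‖a n‖ ≤ c * (n : ℝ) ^ (1 / 4 + ε)} (1 - 2 * ε) := by
  classical
  obtain ⟨C, hC⟩ := hcusp.cuspidal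
  have hC0 : 0 ≤ C := le_trans (by positivity) (hC UpperHalfPlane.I)
  have hms := Pool.Agent.X35.MF.mean_sq a (fun z => f (UpperHalfPlane.ofComplex z)) (3 / 4) C (by norm_num) hC0
    (by
      intro z hz
      have h1 := hcoef (UpperHalfPlane.ofComplex z)
      rw [UpperHalfPlane.ofComplex_apply_of_im_pos hz] at h1 ⊢
      exact h1)
    (by
      intro z hz
      have h1 := hC (UpperHalfPlane.ofComplex z)
      rw [UpperHalfPlane.ofComplex_apply_of_im_pos hz] at h1 ⊢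
      exact h1)
  have hD : 0 ≤ Real.exp (4 * Real.pi) * C ^ 2 := by positivity
  have e : {n : ℕ | ¬ ‖a n‖ ≤ c * (n : ℝ) ^ (1 / 4 + ε)} =
      {n : ℕ | c * (n : ℝ) ^ (3 / 4 - 1 / 2 + ε) < ‖a n‖} := by
    have e1 : (3 / 4 - 1 / 2 + ε : ℝ) = 1 / 4 + ε := by ring
    rw [e1]
    ext n
    exact not_le
  rw [e]
  intro δ hδ
  refine Pool.Agent.X16.NW.count_filter _ (s := 1 - 2 * ε) (by linarith) (fun δ' hδ' => ?_) δ hδ
  obtain ⟨K, hK⟩ := Pool.Agent.X35.MF.large_card a (3 / 4) _ ε c hD hε2 hc (by linarith) hms δ' hδ'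
  refine ⟨K, fun X hX => ?_⟩
  convert hK X hX

lemma span_of (L : (ℕ → Prop) → Prop) (hm : ∀ P Q : ℕ → Prop, (∀ n, P n → Q n) → L P → L Q)
    (ha : ∀ P Q : ℕ → Prop, L P → L Q → L (fun n => P n ∧ Q n)) (F : ℕ → ℕ → ℂ) (e : ℝ)
    (h : ∀ j m : ℕ, L (fun n => ‖F j n‖ ≤ 1 / ((m : ℝ) + 1) * (n : ℝ) ^ e)) :
    ∀ a ∈ Submodule.span ℂ (Set.range F), ∀ c : ℝ, 0 < c → L (fun n => ‖a n‖ ≤ c * (n : ℝ) ^ e) := by
  intro a ha'
  induction ha' using Submodule.span_induction with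
  | mem x hx =>
    obtain ⟨j, rfl⟩ := hx
    intro c hc
    obtain ⟨m, hm'⟩ := exists_nat_gt (1 / c)
    refine hm _ _ (fun n hn => hn.trans ?_) (h j m)
    apply mul_le_mul_of_nonneg_right _ (by positivity)
    rw [div_le_iff₀ (by positivity)]
    rw [div_lt_iff₀ hc] at hm'
    nlinarith
  | zero =>
    intro c hc
    refine hm _ _ (fun n _ => ?_) (h 0 0)
    simp only [Pi.zero_apply, norm_zero]
    positivity
  | add x y _ _ hx hy =>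
    intro c hc
    refine hm _ _ (fun n hn => ?_) (ha _ _ (hx (c / 2) (by positivity)) (hy (c / 2) (by positivity)))
    have h3 := norm_add_le (x n) (y n)
    rw [Pi.add_apply]
    have h4 := hn.1
    have h5 := hn.2
    linarith
  | smul b x _ hx =>
    intro c hc
    have hb : 0 < ‖b‖ + 1 := by positivity
    refine hm _ _ (fun n hn => ?_) (hx (c / (‖b‖ + 1)) (by positivity))
    rw [Pi.smul_apply, smul_eq_mul, norm_mul]
    have h2 : ‖b‖ * ‖x n‖ ≤ (‖b‖ + 1) * (c / (‖b‖ + 1) * (n : ℝ) ^ e) :=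
      mul_le_mul (by linarith) hn (norm_nonneg _) hb.le
    refine h2.trans (le_of_eq ?_)
    field_simp

lemma near_mono {w : ℕ → ℝ} {θ : ℝ} (P Q : ℕ → Prop) (h : ∀ n, P n → Q n) (hP : AllNear P w θ) : AllNear Q w θ := by
  obtain ⟨n₀, hn⟩ := hP
  exact ⟨n₀, fun n hn1 m hm => h _ (hn n hn1 m hm)⟩

lemma near_and {w : ℕ → ℝ} {θ : ℝ} (P Q : ℕ → Prop) (hP : AllNear P w θ) (hQ : AllNear Q w θ) :
    AllNear (fun n => P n ∧ Q n) w θ := by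
  obtain ⟨n₀, hn⟩ := hP
  obtain ⟨n₁, hn'⟩ := hQ
  exact ⟨max n₀ n₁, fun n hn1 m hm => ⟨hn n ((le_max_left _ _).trans hn1) m hm,
    hn' n ((le_max_right _ _).trans hn1) m hm⟩⟩

lemma den_mono {d : ℕ} {x y θ : Fin d → ℝ} (P Q : ℕ → Prop) (h : ∀ n, P n → Q n)
    (hP : AllDenominators P x y θ) : AllDenominators Q x y θ := by
  obtain ⟨n₀, hn⟩ := hP
  exact ⟨n₀, fun n hn1 hm => h _ (hn n hn1 hm)⟩

lemma den_and {d : ℕ} {x y θ : Fin d → ℝ} (P Q : ℕ → Prop) (hP : AllDenominators P x y θ)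
    (hQ : AllDenominators Q x y θ) : AllDenominators (fun n => P n ∧ Q n) x y θ := by
  obtain ⟨n₀, hn⟩ := hP
  obtain ⟨n₁, hn'⟩ := hQ
  exact ⟨max n₀ n₁, fun n hn1 hm => ⟨hn n ((le_max_left _ _).trans hn1) hm,
    hn' n ((le_max_right _ _).trans hn1) hm⟩⟩

lemma bound_mono {a : ℕ → ℂ} {c ε ε' : ℝ} (hc : 0 ≤ c) (hε' : 0 < ε') (h : ε' ≤ ε) (m : ℕ)
    (hm : ‖a m‖ ≤ c * (m : ℝ) ^ (1 / 4 + ε')) : ‖a m‖ ≤ c * (m : ℝ) ^ (1 / 4 + ε) := by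
  refine hm.trans (mul_le_mul_of_nonneg_left ?_ hc)
  rcases Nat.eq_zero_or_pos m with h0 | h0
  · rw [h0, Nat.cast_zero, Real.zero_rpow (by linarith), Real.zero_rpow (by linarith)]
  · exact Real.rpow_le_rpow_of_exponent_le (by exact_mod_cast h0) (by linarith)

lemma near_change {a : ℕ → ℂ} {c ε ε' θ θ' : ℝ} {w : ℕ → ℝ} (hc : 0 ≤ c) (hε' : 0 < ε') (hε : ε' ≤ ε) (hθ : θ ≤ θ')
    (hw : ∃ n₁ : ℕ, ∀ n : ℕ, n₁ ≤ n → 1 ≤ w n) (h : Near a c ε' w θ') : Near a c ε w θ := by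
  obtain ⟨n₀, hn⟩ := h
  obtain ⟨n₁, hn'⟩ := hw
  exact ⟨max n₀ n₁, fun n hn1 m hm => bound_mono hc hε' hε m (hn n ((le_max_left _ _).trans hn1) m
    (hm.trans (Real.rpow_le_rpow_of_exponent_le (hn' n ((le_max_right _ _).trans hn1)) hθ)))⟩

/-- rational numbers between -/
lemma exists_rats {ε θ δ : ℝ} (h : δ < 2 * ε - θ) : ∃ r s : ℚ, (r : ℝ) < ε ∧ θ < (s : ℝ) ∧ δ < 2 * (r : ℝ) - s := by
  obtain ⟨r, h1, h2⟩ := exists_rat_btwn (show (θ + δ) / 2 < ε by linarith)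
  obtain ⟨s, h3, h4⟩ := exists_rat_btwn (show θ < 2 * (r : ℝ) - δ by linarith)
  exact ⟨r, s, h2, h3, by linarith⟩

/-- Let `F_0, F_1, ...` be a sequence (any countable set) of coefficient sequences of cusp forms of weight `3 / 2` on groups
`Γ_0(24 p)` with characters `χ`, where the primes `p` and the characters `χ` are arbitrary (for example, bases of all these spaces).

(1) Let `κ_n / log n → ∞`. For almost all `t > 1`, for all `0 < ε ≤ 1 / 2`, `0 ≤ θ < 2 ε`, all linear combinations `a = (a(m))` of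
the `F_j`, all `c > 0` and all large `n`, `|a(m)| ≤ c m ^ (1 / 4 + ε)` for all `m` with `|m - t ^ κ_n| ≤ t ^ (κ_n θ)`. For given
`0 < ε ≤ 1 / 2` and `0 ≤ θ < 1` the exceptional `t > 1` form a set of Hausdorff dimension at most `(1 - 2 ε) / (1 - θ)`.
(2) For almost all `t > 0`, for all `0 < ε ≤ 1 / 2`, `0 ≤ θ` with `1 / t < 2 ε - θ`, all linear combinations `a`, all `c > 0` and
all large `n`, `|a(m)| ≤ c m ^ (1 / 4 + ε)` for all `m` with `|m - n ^ t| ≤ n ^ (t θ)`. For given `0 < ε ≤ 1 / 2`, `0 ≤ θ < 1`,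
`b > 0` the exceptional `t ≥ b` form a set of Hausdorff dimension at most `(1 - 2 ε + 1 / b) / (1 - θ)`.
(3) Let `θ, y ∈ ℝ ^ d`, `θ_i ≥ 0`. For almost all `x ∈ ℝ ^ d`, for all `0 < ε ≤ 1 / 2` with `θ_1 + ... + θ_d > 1 - 2 ε` (for all
`ε > 0`, if the sum is at least `1`), all linear combinations `a` and all `c > 0`, `|a(q)| ≤ c q ^ (1 / 4 + ε)` for all large `q` such
that `q x_i` is within `q ^ (-θ_i)` of `y_i` modulo `1` for all `i`.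
(4) For `d = 1` and given `0 < ε ≤ 1 / 2` and `θ ≥ 0` the exceptional real numbers `x` form a set of Hausdorff dimension at most
`(2 - 2 ε) / (1 + θ)`. -/
theorem result (F : ℕ → ℕ → ℂ) (hF : FormSequences F) :
    (∀ κ : ℕ → ℝ, Tendsto (fun n : ℕ => κ n / Real.log n) atTop atTop →
      (∀ᵐ t : ℝ, 1 < t → ∀ ε θ : ℝ, 0 < ε → ε ≤ 1 / 2 → 0 ≤ θ → θ < 2 * ε →
        ∀ a ∈ Submodule.span ℂ (Set.range F), ∀ c : ℝ, 0 < c → Near a c ε (fun n => t ^ κ n) θ) ∧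
      ∀ ε θ : ℝ, 0 < ε → ε ≤ 1 / 2 → 0 ≤ θ → θ < 1 →
        ∃ E : Set ℝ, dimH E ≤ ENNReal.ofReal ((1 - 2 * ε) / (1 - θ)) ∧ ∀ t : ℝ, 1 < t → t ∉ E →
          ∀ a ∈ Submodule.span ℂ (Set.range F), ∀ c : ℝ, 0 < c → Near a c ε (fun n => t ^ κ n) θ) ∧
    ((∀ᵐ t : ℝ, 0 < t → ∀ ε θ : ℝ, 0 < ε → ε ≤ 1 / 2 → 0 ≤ θ → 1 / t < 2 * ε - θ →
        ∀ a ∈ Submodule.span ℂ (Set.range F), ∀ c : ℝ, 0 < c → Near a c ε (fun n => (n : ℝ) ^ t) θ) ∧
      ∀ ε θ b : ℝ, 0 < ε → ε ≤ 1 / 2 → 0 ≤ θ → θ < 1 → 0 < b →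
        ∃ E : Set ℝ, dimH E ≤ ENNReal.ofReal ((1 - 2 * ε + 1 / b) / (1 - θ)) ∧ ∀ t : ℝ, b ≤ t → t ∉ E →
          ∀ a ∈ Submodule.span ℂ (Set.range F), ∀ c : ℝ, 0 < c → Near a c ε (fun n => (n : ℝ) ^ t) θ) ∧
    (∀ (d : ℕ) (θ y : Fin d → ℝ), (∀ i, 0 ≤ θ i) → ∀ᵐ x : Fin d → ℝ, ∀ ε : ℝ, 0 < ε → ε ≤ 1 / 2 →
      1 - 2 * ε < ∑ i, θ i → ∀ a ∈ Submodule.span ℂ (Set.range F), ∀ c : ℝ, 0 < c → AtDenominators a c ε x y θ) ∧
    (∀ ε θ y : ℝ, 0 < ε → ε ≤ 1 / 2 → 0 ≤ θ →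
      ∃ E : Set ℝ, dimH E ≤ ENNReal.ofReal ((2 - 2 * ε) / (1 + θ)) ∧ ∀ x : ℝ, x ∉ E →
        ∀ a ∈ Submodule.span ℂ (Set.range F), ∀ c : ℝ, 0 < c →
          AtDenominators a c ε (fun _ : Fin 1 => x) (fun _ => y) (fun _ => θ)) := by
  have hsp : ∀ (j m : ℕ) (ε : ℝ), 0 < ε → ε ≤ 1 / 2 →
      Sparse {n : ℕ | ¬ ‖F j n‖ ≤ 1 / ((m : ℝ) + 1) * (n : ℝ) ^ (1 / 4 + ε)} (1 - 2 * ε) := by
    intro j m ε h1 h2
    obtain ⟨p, χ, f, -, hcusp, hcoef⟩ := hF j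
    exact sparse_bad hcusp hcoef (by positivity) h1 h2
  have hpack := fun (j m : ℕ) (ε : ℝ) (h1 : 0 < ε) (h2 : ε ≤ 1 / 2) =>
    pack (fun n : ℕ => ‖F j n‖ ≤ 1 / ((m : ℝ) + 1) * (n : ℝ) ^ (1 / 4 + ε)) (s := 1 - 2 * ε) (by linarith)
      (hsp j m ε h1 h2)
  refine ⟨fun κ hκ => ⟨?_, ?_⟩, ⟨?_, ?_⟩, ?_, ?_⟩
  · have h0 : ∀ rs : ℚ × ℚ, ∀ᵐ t : ℝ, 1 < t → 0 < (rs.1 : ℝ) → (rs.1 : ℝ) ≤ 1 / 2 → 0 ≤ (rs.2 : ℝ) →
        (rs.2 : ℝ) < 2 * rs.1 → ∀ a ∈ Submodule.span ℂ (Set.range F), ∀ c : ℝ, 0 < c →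
        Near a c rs.1 (fun n => t ^ κ n) rs.2 := by
      rintro ⟨r, s⟩
      by_cases h : 0 < (r : ℝ) ∧ (r : ℝ) ≤ 1 / 2 ∧ 0 ≤ (s : ℝ) ∧ (s : ℝ) < 2 * r
      · obtain ⟨h1, h2, h3, h4⟩ := h
        have h5 : ∀ jm : ℕ × ℕ, ∀ᵐ t : ℝ, 1 < t →
            AllNear (fun n : ℕ => ‖F jm.1 n‖ ≤ 1 / ((jm.2 : ℝ) + 1) * (n : ℝ) ^ (1 / 4 + (r : ℝ))) (fun n => t ^ κ n) s :=
          fun jm => ((hpack jm.1 jm.2 r h1 h2).1 κ s hκ h3 (by linarith)).2 (by linarith)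
        filter_upwards [ae_all_iff.2 h5] with t ht ht1 _ _ _ _
        exact span_of (fun P => AllNear P (fun n => t ^ κ n) s) near_mono near_and F _ fun j m => ht (j, m) ht1
      · filter_upwards with t ht h1 h2 h3 h4
        exact absurd ⟨h1, h2, h3, h4⟩ h
    filter_upwards [ae_all_iff.2 h0] with t ht ht1 ε θ hε hε2 hθ hθε a ha c hc
    obtain ⟨r, s, h1, h2, h3⟩ := exists_rats (ε := ε) (θ := θ) (δ := 0) (by linarith)
    refine near_change hc.le (by linarith) h1.le h2.le ?_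
      (ht (r, s) ht1 (by simp only; linarith) (by simp only; linarith) (by simp only; linarith) (by simp only; linarith) a ha c hc)
    obtain ⟨n₁, hn₁⟩ := eventually_atTop.1 (hκ.eventually_ge_atTop 0)
    refine ⟨max n₁ 2, fun n hn => Real.one_le_rpow ht1.le ?_⟩
    have h4 := hn₁ n ((le_max_left _ _).trans hn)
    have h5 : 0 < Real.log n := Real.log_pos (by exact_mod_cast (le_max_right _ _).trans hn)
    by_contra hneg
    push Not at hneg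
    exact absurd h4 (not_le.2 (div_neg_of_neg_of_pos hneg h5))
  · intro ε θ hε hε2 hθ hθ1
    choose E hE1 hE2 using fun jm : ℕ × ℕ => ((hpack jm.1 jm.2 ε hε hε2).1 κ θ hκ hθ hθ1).1
    refine ⟨⋃ jm, E jm, ?_, fun t ht htE => ?_⟩
    · rw [dimH_iUnion]
      exact iSup_le hE1
    · exact span_of (fun P => AllNear P (fun n => t ^ κ n) θ) near_mono near_and F _ fun j m =>
        hE2 (j, m) t ht fun h => htE (Set.mem_iUnion.2 ⟨_, h⟩)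
  · have h0 : ∀ rs : ℚ × ℚ, ∀ᵐ t : ℝ, 1 / (2 * (rs.1 : ℝ) - rs.2) < t → 0 < (rs.1 : ℝ) → (rs.1 : ℝ) ≤ 1 / 2 → 0 ≤ (rs.2 : ℝ) →
        (rs.2 : ℝ) < 2 * rs.1 → ∀ a ∈ Submodule.span ℂ (Set.range F), ∀ c : ℝ, 0 < c →
        Near a c rs.1 (fun n => (n : ℝ) ^ t) rs.2 := by
      rintro ⟨r, s⟩
      by_cases h : 0 < (r : ℝ) ∧ (r : ℝ) ≤ 1 / 2 ∧ 0 ≤ (s : ℝ) ∧ (s : ℝ) < 2 * r
      · obtain ⟨h1, h2, h3, h4⟩ := h
        have h5 : ∀ jm : ℕ × ℕ, ∀ᵐ t : ℝ, 1 / (2 * (r : ℝ) - s) < t →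
            AllNear (fun n : ℕ => ‖F jm.1 n‖ ≤ 1 / ((jm.2 : ℝ) + 1) * (n : ℝ) ^ (1 / 4 + (r : ℝ)))
              (fun n => (n : ℝ) ^ t) s := by
          intro jm
          have h6 := ((hpack jm.1 jm.2 r h1 h2).2.1 s h3 (by linarith)).2 (by linarith)
          have e : (1 : ℝ) - (1 - 2 * r) - s = 2 * r - s := by ring
          rw [e] at h6
          exact h6
        filter_upwards [ae_all_iff.2 h5] with t ht ht1 _ _ _ _
        exact span_of (fun P => AllNear P (fun n => (n : ℝ) ^ t) s) near_mono near_and F _ fun j m => ht (j, m) ht1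
      · filter_upwards with t ht h1 h2 h3 h4
        exact absurd ⟨h1, h2, h3, h4⟩ h
    filter_upwards [ae_all_iff.2 h0] with t ht ht1 ε θ hε hε2 hθ hθε a ha c hc
    have hti : 0 < 1 / t := one_div_pos.2 ht1
    obtain ⟨r, s, h1, h2, h3⟩ := exists_rats (ε := ε) (θ := θ) (δ := 1 / t) hθε
    refine near_change hc.le (by linarith) h1.le h2.le ?_
      (ht (r, s) ?_ (by simp only; linarith) (by simp only; linarith) (by simp only; linarith) (by simp only; linarith) a ha c hc)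
    · exact ⟨1, fun n hn => Real.one_le_rpow (by exact_mod_cast hn) ht1.le⟩
    · simp only
      rw [one_div_lt (by linarith) ht1]
      exact h3
  · intro ε θ b hε hε2 hθ hθ1 hb
    choose E hE1 hE2 using fun jm : ℕ × ℕ => ((hpack jm.1 jm.2 ε hε hε2).2.1 θ hθ hθ1).1 b hb
    refine ⟨⋃ jm, E jm, ?_, fun t ht htE => ?_⟩
    · rw [dimH_iUnion]
      exact iSup_le hE1
    · exact span_of (fun P => AllNear P (fun n => (n : ℝ) ^ t) θ) near_mono near_and F _ fun j m =>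
        hE2 (j, m) t ht fun h => htE (Set.mem_iUnion.2 ⟨_, h⟩)
  · intro d θ y hθ
    have h0 : ∀ r : ℚ, ∀ᵐ x : Fin d → ℝ, 0 < (r : ℝ) → (r : ℝ) ≤ 1 / 2 → 1 - 2 * (r : ℝ) < ∑ i, θ i →
        ∀ a ∈ Submodule.span ℂ (Set.range F), ∀ c : ℝ, 0 < c → AtDenominators a c r x y θ := by
      intro r
      by_cases h : 0 < (r : ℝ) ∧ (r : ℝ) ≤ 1 / 2 ∧ 1 - 2 * (r : ℝ) < ∑ i, θ i
      · obtain ⟨h1, h2, h3⟩ := h
        have h5 : ∀ jm : ℕ × ℕ, ∀ᵐ x : Fin d → ℝ,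
            AllDenominators (fun n : ℕ => ‖F jm.1 n‖ ≤ 1 / ((jm.2 : ℝ) + 1) * (n : ℝ) ^ (1 / 4 + (r : ℝ))) x y θ :=
          fun jm => (hpack jm.1 jm.2 r h1 h2).2.2.1 d θ y hθ h3
        filter_upwards [ae_all_iff.2 h5] with x hx _ _ _
        exact span_of (fun P => AllDenominators P x y θ) den_mono den_and F _ fun j m => hx (j, m)
      · filter_upwards with x h1 h2 h3
        exact absurd ⟨h1, h2, h3⟩ h
    filter_upwards [ae_all_iff.2 h0] with x hx ε hε hε2 hsum a ha c hc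
    obtain ⟨r, h1, h2⟩ := exists_rat_btwn (show max 0 ((1 - ∑ i, θ i) / 2) < ε from max_lt hε (by linarith))
    have h3 : (0 : ℝ) < r := lt_of_le_of_lt (le_max_left _ _) h1
    have h4 : (1 - ∑ i, θ i) / 2 < r := lt_of_le_of_lt (le_max_right _ _) h1
    obtain ⟨q₀, hq⟩ := hx r h3 (by linarith) (by linarith) a ha c hc
    exact ⟨q₀, fun q hq1 hq2 => bound_mono hc.le h3 h2.le q (hq q hq1 hq2)⟩
  · intro ε θ y hε hε2 hθ
    choose E hE1 hE2 using fun jm : ℕ × ℕ => (hpack jm.1 jm.2 ε hε hε2).2.2.2 θ y hθ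
    refine ⟨⋃ jm, E jm, ?_, fun x hx => ?_⟩
    · rw [dimH_iUnion]
      refine iSup_le fun jm => (hE1 jm).trans (le_of_eq ?_)
      congr 2
      ring
    · refine span_of (fun P => AllDenominators P (fun _ : Fin 1 => x) (fun _ => y) (fun _ => θ)) den_mono den_and F _
        fun j m => ?_
      obtain ⟨q₀, hq⟩ := hE2 (j, m) x fun h => hx (Set.mem_iUnion.2 ⟨_, h⟩)
      exact ⟨q₀, fun q hq1 hq2 => hq q hq1 (hq2 0)⟩

end Pool.Agent.Results.MP_af11aa_nt.PowersAndDenominators
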