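import Pool.Agent.X35.MF.Mean

/-!
# The Ramanujan bound for the coefficients `a_f(n)` of cusp forms of weight `3 / 2`, for ALL integers `n` near `α v_i`
-/

set_option autoImplicit false

namespace Pool.Agent.Results.MP_af11aa_nt.WeightThreeHalvesNearSequences

open Finset Complex UpperHalfPlane
open scoped MatrixGroups

/-- The theta function `θ(z) = ∑_{n ∈ ℤ} e(n² z)`. -/
noncomputable def theta (z : ℍ) : ℂ := ∑' n : ℤ, cexp (2 * Real.pi * Complex.I * (n : ℂ) ^ 2 * (z : ℂ))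

/-- The cusp forms of weight `3 / 2` on `Γ_0(N)` with character `χ`, in Shimura's normalisation: `f` is holomorphic on the upper half
plane, `f(γ z) = χ(d) j(γ, z)³ f(z)` for the matrices `γ` in `Γ_0(N)` with lower right entry `d`, `j(γ, z) = θ(γ z) / θ(z)`, and
`(Im z) ^ (3 / 4) |f(z)|` is bounded. -/
structure IsCuspForm (N : ℕ) (χ : DirichletCharacter ℂ N) (f : ℍ → ℂ) : Prop where
  holomorphic : DifferentiableOn ℂ (fun z : ℂ => f (UpperHalfPlane.ofComplex z)) {z : ℂ | 0 < z.im}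
  modular : ∀ γ ∈ CongruenceSubgroup.Gamma0 N, ∀ z : ℍ,
    f (γ • z) * theta z ^ 3 = χ ((γ : Matrix (Fin 2) (Fin 2) ℤ) 1 1 : ZMod N) * theta (γ • z) ^ 3 * f z
  cuspidal : ∃ C : ℝ, ∀ z : ℍ, z.im ^ (3 / 4 : ℝ) * ‖f z‖ ≤ C

/-- `a_f(n)` are the Fourier coefficients of `f`: `f(z) = ∑ a_f(n) e(n z)`. -/
def Coefficients (f : ℍ → ℂ) (a : ℕ → ℂ) : Prop :=
  ∀ z : ℍ, HasSum (fun n : ℕ => a n * cexp (2 * Real.pi * Complex.I * (n : ℂ) * (z : ℂ))) (f z)

/-- Let `F_0, F_1, ...` be a sequence (any countable set) of coefficient sequences of cusp forms of weight `3 / 2` on groups `Γ_0(24 p)` with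
characters `χ`, where the primes `p` and the characters `χ` are arbitrary (for example, bases of all these spaces). Let `v_i ≥ 1` with
`∑ v_i ^ (-t) < ∞` for all `t > τ` (`τ ≥ 0`; for example `v_i = 2 ^ i`, `τ = 0`), `θ < 1` and `0 < ε ≤ 1 / 2`. There is a set `E` of
Hausdorff dimension at most `(1 - 2 ε + τ) / (1 - θ)` such that for every real `α > 0` outside `E`, ALL linear combinations
`a = (a(n))` of the sequences `F_j`, every `c > 0`, all `i ≥ i₀` and ALL integers `n` with `|n - α v_i| ≤ v_i ^ θ` (squarefree or not)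
`|a(n)| ≤ c n ^ (1 / 4 + ε)`. -/
theorem result (v : ℕ → ℝ) (τ θ ε : ℝ) (hv1 : ∀ i, 1 ≤ v i) (hτ : 0 ≤ τ) (hθ : θ < 1) (hε : 0 < ε) (hε2 : ε ≤ 1 / 2)
    (hv : ∀ t : ℝ, τ < t → Summable (fun i => v i ^ (-t)))
    (F : ℕ → ℕ → ℂ)
    (hF : ∀ j, ∃ (p : ℕ) (χ : DirichletCharacter ℂ (24 * p)) (f : ℍ → ℂ), p.Prime ∧ IsCuspForm (24 * p) χ f ∧ Coefficients f (F j)) :
    ∃ E : Set ℝ, dimH E ≤ ENNReal.ofReal ((1 - 2 * ε + τ) / (1 - θ)) ∧
      ∀ α : ℝ, 0 < α → α ∉ E → ∀ a ∈ Submodule.span ℂ (Set.range F), ∀ c : ℝ, 0 < c →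
        ∃ i₀ : ℕ, ∀ i : ℕ, i₀ ≤ i → ∀ n : ℕ, |(n : ℝ) - α * v i| ≤ v i ^ θ → ‖a n‖ ≤ c * (n : ℝ) ^ (1 / 4 + ε) := by
  classical
  -- one form and one constant
  have hone : ∀ jm : ℕ × ℕ, ∃ E : Set ℝ, dimH E ≤ ENNReal.ofReal ((1 - 2 * ε + τ) / (1 - θ)) ∧ ∀ α : ℝ, 0 < α → α ∉ E →
      ∃ i₀ : ℕ, ∀ i : ℕ, i₀ ≤ i → ∀ n : ℕ, |(n : ℝ) - α * v i| ≤ v i ^ θ →
        ‖F jm.1 n‖ ≤ (1 / ((jm.2 : ℝ) + 1)) * (n : ℝ) ^ (3 / 4 - 1 / 2 + ε) := by
    rintro ⟨j, m⟩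
    obtain ⟨p, χ, f, _, hcusp, hcoef⟩ := hF j
    obtain ⟨C, hC⟩ := hcusp.cuspidal
    have hC0 : 0 ≤ C := le_trans (by positivity) (hC UpperHalfPlane.I)
    have hms := Pool.Agent.X35.MF.mean_sq (F j) (fun z => f (UpperHalfPlane.ofComplex z)) (3 / 4) C (by norm_num) hC0
      (by
        intro z hz
        have h1 := hcoef (UpperHalfPlane.ofComplex z)
        rw [UpperHalfPlane.ofComplex_apply_of_im_pos hz] at h1 ⊢
        exact h1)
      (by
        intro z hz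
        have h1 := hC (UpperHalfPlane.ofComplex z)
        rw [UpperHalfPlane.ofComplex_apply_of_im_pos hz] at h1 ⊢
        exact h1)
    have hD : 0 ≤ Real.exp (4 * Real.pi) * C ^ 2 := by positivity
    obtain ⟨E, hE1, hE2⟩ := Pool.Agent.Y854.GM.win_nat {n : ℕ | (1 / ((m : ℝ) + 1)) * (n : ℝ) ^ (3 / 4 - 1 / 2 + ε) < ‖F j n‖} hv1 hτ
      (show Pool.Agent.Y854.GM.ExpLe v τ from hv) (s := 1 - 2 * ε) (by linarith) hθ (by
        intro δ hδ
        exact Pool.Agent.X35.MF.large_card (F j) (3 / 4) _ ε (1 / ((m : ℝ) + 1)) hD hε2 (by positivity) (by linarith) hms δ hδ)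
    refine ⟨E, hE1, fun α hα hαE => ?_⟩
    obtain ⟨i₀, hi₀⟩ := hE2 α hα hαE
    refine ⟨i₀, fun i hi n hn => ?_⟩
    exact not_lt.1 (hi₀ i hi n hn).2
  choose E hE1 hE2 using hone
  refine ⟨⋃ jm, E jm, ?_, fun α hα hαE a ha => ?_⟩
  · rw [dimH_iUnion]
    exact iSup_le hE1
  · have hαE' : ∀ jm, α ∉ E jm := fun jm h => hαE (Set.mem_iUnion.2 ⟨jm, h⟩)
    induction ha using Submodule.span_induction with
    | mem x hx =>
      obtain ⟨j, rfl⟩ := hx
      intro c hc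
      obtain ⟨m, hm⟩ := exists_nat_gt (1 / c)
      obtain ⟨i₀, hi₀⟩ := hE2 (j, m) α hα (hαE' _)
      refine ⟨i₀, fun i hi n hn => (hi₀ i hi n hn).trans ?_⟩
      have e : (3 / 4 - 1 / 2 + ε : ℝ) = 1 / 4 + ε := by ring
      rw [e]
      apply mul_le_mul_of_nonneg_right _ (by positivity)
      rw [div_le_iff₀ (by positivity)]
      rw [div_lt_iff₀ hc] at hm
      simp only
      nlinarith
    | zero =>
      intro c hc
      refine ⟨0, fun i _ n _ => ?_⟩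
      simp only [Pi.zero_apply, norm_zero]
      positivity
    | add x y _ _ hx hy =>
      intro c hc
      obtain ⟨i₁, hi₁⟩ := hx (c / 2) (by positivity)
      obtain ⟨i₂, hi₂⟩ := hy (c / 2) (by positivity)
      refine ⟨max i₁ i₂, fun i hi n hn => ?_⟩
      have h1 := hi₁ i (le_trans (le_max_left _ _) hi) n hn
      have h2 := hi₂ i (le_trans (le_max_right _ _) hi) n hn
      have h3 := norm_add_le (x n) (y n)
      rw [Pi.add_apply]
      linarith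
    | smul b x _ hx =>
      intro c hc
      have hb : 0 < ‖b‖ + 1 := by positivity
      obtain ⟨i₁, hi₁⟩ := hx (c / (‖b‖ + 1)) (by positivity)
      refine ⟨i₁, fun i hi n hn => ?_⟩
      have h1 := hi₁ i hi n hn
      rw [Pi.smul_apply, smul_eq_mul, norm_mul]
      have h2 : ‖b‖ * ‖x n‖ ≤ (‖b‖ + 1) * (c / (‖b‖ + 1) * (n : ℝ) ^ (1 / 4 + ε)) :=
        mul_le_mul (by linarith) h1 (norm_nonneg _) hb.le
      refine h2.trans (le_of_eq ?_)
      field_simp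

end Pool.Agent.Results.MP_af11aa_nt.WeightThreeHalvesNearSequences
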